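import Mathlib

/-!
The parabola differences: a sum-free set `S = {(x, x²) : x ≠ 0}` in `F_p × F_p` whose Cayley
(bi)graph has codegrees at most one, hence blocks all pairs of large sets.
-/

namespace Pool.Agent.L7h7.TriDeg

open Finset

variable (p : ℕ) [Fact p.Prime]

abbrev HH := ZMod p × ZMod p

/-- the punctured parabola -/
def par : Finset (HH p) := (univ.filter (fun x : ZMod p => x ≠ 0)).image (fun x => (x, x ^ 2))

lemma mem_par {v : HH p} : v ∈ par p ↔ v.1 ≠ 0 ∧ v.2 = v.1 ^ 2 := by
  unfold par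
  simp only [mem_image, mem_filter, mem_univ, true_and]
  constructor
  · rintro ⟨x, hx, rfl⟩
    exact ⟨hx, rfl⟩
  · rintro ⟨h1, h2⟩
    exact ⟨v.1, h1, by rw [← h2]⟩

lemma card_par : (par p).card = p - 1 := by
  unfold par
  rw [Finset.card_image_of_injective]
  · rw [Finset.filter_ne' univ (0 : ZMod p), Finset.card_erase_of_mem (mem_univ _)]
    simp [ZMod.card]
  · intro x y h
    simp at h
    exact h.1

variable {p}

lemma two_ne (hp : p ≠ 2) : (2 : ZMod p) ≠ 0 := by
  intro h
  have h2 : ((2 : ℕ) : ZMod p) = 0 := by exact_mod_cast h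
  rw [ZMod.natCast_eq_zero_iff] at h2
  have := (Nat.prime_dvd_prime_iff_eq (Fact.out : p.Prime) Nat.prime_two).1 h2
  exact hp this

lemma par_sumfree (hp : p ≠ 2) {s t : HH p} (hs : s ∈ par p) (ht : t ∈ par p) :
    s + t ∉ par p := by
  rw [mem_par] at *
  rintro ⟨-, h⟩
  simp only [Prod.fst_add, Prod.snd_add] at h
  rw [hs.2, ht.2] at h
  have h3 : 2 * (s.1 * t.1) = 0 := by linear_combination -h
  rcases mul_eq_zero.1 h3 with h4 | h4
  · exact two_ne hp h4
  · rcases mul_eq_zero.1 h4 with h5 | h5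
    · exact hs.1 h5
    · exact ht.1 h5

lemma codeg (hp : p ≠ 2) {a b : HH p} (hab : a ≠ b) :
    (univ.filter (fun w : HH p => w - a ∈ par p ∧ w - b ∈ par p)).card ≤ 1 := by
  rw [Finset.card_le_one]
  intro w hw w' hw'
  simp only [mem_filter, mem_univ, true_and, mem_par, Prod.fst_sub, Prod.snd_sub] at hw hw'
  obtain ⟨⟨-, h1⟩, -, h2⟩ := hw
  obtain ⟨⟨-, h3⟩, -, h4⟩ := hw'
  have hne : a.1 ≠ b.1 := by
    intro h
    apply hab
    apply Prod.ext h
    rw [h] at h1
    linear_combination h2 - h1
  have hne' : a.1 - b.1 ≠ 0 := sub_ne_zero.2 hne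
  have h5 : 2 * ((a.1 - b.1) * (w.1 - w'.1)) = 0 := by
    linear_combination h1 - h2 - h3 + h4
  have h6 : w.1 = w'.1 := by
    rcases mul_eq_zero.1 h5 with h | h
    · exact absurd h (two_ne hp)
    · rcases mul_eq_zero.1 h with h | h
      · exact absurd h hne'
      · exact sub_eq_zero.1 h
  apply Prod.ext h6
  have : w.2 - a.2 = w'.2 - a.2 := by rw [h1, h3, h6]
  linear_combination this

lemma card_shift (a : HH p) (T : Finset (HH p)) :
    (univ.filter (fun w : HH p => w - a ∈ T)).card = T.card := by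
  apply Finset.card_bij (fun w _ => w - a)
  · intro w hw
    simpa using hw
  · intro w _ w' _ h
    exact sub_left_injective h
  · intro t ht
    exact ⟨t + a, by simpa using ht, by simp⟩

lemma card_shift' (a : HH p) (T : Finset (HH p)) :
    (univ.filter (fun w : HH p => a - w ∈ T)).card = T.card := by
  apply Finset.card_bij (fun w _ => a - w)
  · intro w hw
    simpa using hw
  · intro w _ w' _ h
    exact sub_right_injective h
  · intro t ht
    exact ⟨a - t, by simpa using ht, by simp⟩

/-- Cauchy-Schwarz count. -/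
lemma blocking_count (hp : p ≠ 2) (A B : Finset (HH p))
    (hAB : ∀ a ∈ A, ∀ b ∈ B, b - a ∉ par p) :
    (A.card * (p - 1)) ^ 2 ≤ (p * p - B.card) * (A.card * (p - 1) + A.card * A.card) := by
  classical
  set f : HH p → ℕ := fun w => (A.filter (fun a => w - a ∈ par p)).card with hf
  have hsum : ∑ w, f w = A.card * (p - 1) := by
    simp only [hf, Finset.card_filter]
    rw [Finset.sum_comm]
    have : ∀ a ∈ A, (∑ w : HH p, if w - a ∈ par p then 1 else 0) = p - 1 := by
      intro a _
      rw [← Finset.card_filter, card_shift, card_par]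
    rw [Finset.sum_congr rfl this]
    simp
  have hsq : ∑ w, f w ^ 2 ≤ A.card * (p - 1) + A.card * A.card := by
    have h1 : ∀ w, f w ^ 2 = ∑ a ∈ A, ∑ b ∈ A,
        (if w - a ∈ par p ∧ w - b ∈ par p then 1 else 0) := by
      intro w
      simp only [hf, Finset.card_filter, sq]
      rw [Finset.sum_mul_sum]
      apply Finset.sum_congr rfl
      intro a _
      apply Finset.sum_congr rfl
      intro b _
      by_cases h1 : w - a ∈ par p <;> by_cases h2 : w - b ∈ par p <;> simp [h1, h2]
    rw [Finset.sum_congr rfl (fun w _ => h1 w), Finset.sum_comm]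
    have h2 : ∀ a ∈ A, (∑ w : HH p, ∑ b ∈ A,
        (if w - a ∈ par p ∧ w - b ∈ par p then 1 else 0)) ≤ (p - 1) + A.card := by
      intro a ha
      rw [Finset.sum_comm]
      rw [← Finset.add_sum_erase A _ ha]
      apply Nat.add_le_add
      · rw [← Finset.card_filter]
        simp only [and_self]
        rw [card_shift, card_par]
      · calc ∑ b ∈ A.erase a, ∑ w : HH p, (if w - a ∈ par p ∧ w - b ∈ par p then 1 else 0)
            ≤ ∑ b ∈ A.erase a, 1 := by
              apply Finset.sum_le_sum
              intro b hb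
              rw [← Finset.card_filter]
              exact codeg hp (Finset.ne_of_mem_erase hb).symm
          _ ≤ A.card := by
              simp [Finset.card_erase_of_mem ha]
    calc ∑ a ∈ A, (∑ w : HH p, ∑ b ∈ A,
        (if w - a ∈ par p ∧ w - b ∈ par p then 1 else 0)) ≤ ∑ a ∈ A, ((p - 1) + A.card) :=
          Finset.sum_le_sum h2
      _ = A.card * (p - 1) + A.card * A.card := by
          simp [mul_add]
  have hB : ∀ w ∈ B, f w = 0 := by
    intro w hw
    simp only [hf, Finset.card_eq_zero, Finset.filter_eq_empty_iff]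
    intro a ha
    exact hAB a ha w hw
  have hsum' : ∑ w ∈ univ \ B, f w = A.card * (p - 1) := by
    rw [← hsum]
    apply Finset.sum_subset (Finset.subset_univ _)
    intro w _ hw
    have : w ∈ B := by simpa using hw
    exact hB w this
  have hcs := sq_sum_le_card_mul_sum_sq (s := univ \ B) (f := f)
  rw [hsum'] at hcs
  refine hcs.trans ?_
  apply Nat.mul_le_mul
  · rw [Finset.card_sdiff_of_subset (Finset.subset_univ _)]
    simp [ZMod.card]
  · refine le_trans ?_ hsq
    exact Finset.sum_le_sum_of_subset (Finset.subset_univ _)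

/-- For large `p`, two sets with no differences on the parabola cannot both be large. -/
lemma blocking (hp : p ≠ 2) {η : ℝ} (hη : 0 < η) (hη1 : η ≤ 1) (hpl : 3 / η ^ 2 < (p : ℝ))
    (A B : Finset (HH p)) (hAB : ∀ a ∈ A, ∀ b ∈ B, b - a ∉ par p) :
    (A.card : ℝ) ≤ η * (p * p) ∨ (B.card : ℝ) ≤ η * (p * p) := by
  by_contra hcon
  push Not at hcon
  obtain ⟨hA, hB⟩ := hcon
  have hc := blocking_count hp A B hAB
  have hp1 : 1 ≤ p := (Fact.out : p.Prime).one_lt.le
  have hBle : B.card ≤ p * p := by
    have := Finset.card_le_univ B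
    simpa [ZMod.card] using this
  have hc' : ((A.card : ℝ) * ((p : ℝ) - 1)) ^ 2
      ≤ ((p : ℝ) * p - B.card) * (A.card * ((p : ℝ) - 1) + A.card * A.card) := by
    have := (Nat.cast_le (α := ℝ)).2 hc
    push_cast [Nat.cast_sub hp1, Nat.cast_sub hBle] at this
    exact this
  set P : ℝ := (p : ℝ) with hP
  set a : ℝ := (A.card : ℝ) with ha
  set b : ℝ := (B.card : ℝ) with hb
  have hP1 : (1 : ℝ) ≤ P := by rw [hP]; exact_mod_cast hp1
  have hη2 : 0 < η ^ 2 := by positivity
  have hPbig : 3 < η ^ 2 * P := by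
    rw [div_lt_iff₀ hη2] at hpl
    linarith
  have hapos : 0 < a := lt_of_le_of_lt (by positivity) hA
  -- divide by a
  have h1 : a * (P - 1) ^ 2 ≤ (P * P - b) * ((P - 1) + a) := by
    have : a * (a * (P - 1) ^ 2) ≤ a * ((P * P - b) * ((P - 1) + a)) := by
      nlinarith [hc']
    exact le_of_mul_le_mul_left this hapos
  have h2 : (P * P - b) * ((P - 1) + a) ≤ ((1 - η) * (P * P)) * ((P - 1) + a) := by
    apply mul_le_mul_of_nonneg_right
    · nlinarith
    · linarith
  have h3 : a * ((P - 1) ^ 2 - (1 - η) * (P * P)) ≤ (1 - η) * (P * P) * (P - 1) := by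
    nlinarith [h1.trans h2]
  have h4 : (P - 1) ^ 2 - (1 - η) * (P * P) = η * (P * P) - 2 * P + 1 := by ring
  rw [h4] at h3
  have hηP : 3 < η * P := by
    have : η ^ 2 * P ≤ η * P := by nlinarith
    linarith
  have h5 : 0 < η * (P * P) - 2 * P := by nlinarith
  have h6 : (η * (P * P)) * (η * (P * P) - 2 * P) < a * (η * (P * P) - 2 * P + 1) := by
    nlinarith
  have h7 : (1 - η) * (P * P) * (P - 1) ≤ P * P * P := by
    nlinarith [mul_nonneg (mul_nonneg hη.le (mul_self_nonneg P)) (sub_nonneg.2 hP1),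
      mul_self_nonneg P]
  have h8 : (η * (P * P)) * (η * (P * P) - 2 * P) < P * P * P := by linarith
  have h9 : (η * (P * P)) * (η * (P * P) - 2 * P) = (P * P * P) * (η ^ 2 * P - 2 * η) := by ring
  rw [h9] at h8
  have hP3 : 0 < P * P * P := by positivity
  have h10 : η ^ 2 * P - 2 * η < 1 := by
    by_contra hh
    push Not at hh
    nlinarith
  nlinarith

end Pool.Agent.L7h7.TriDeg
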