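import Pool.Agent.L7h7.TriDeg.Graph

/-!
Final assembly: `liminf g_k(n) / n = 1 / k`.
-/

namespace Pool.Agent.L7h7.TriDeg

open Finset Classical Filter

/-- Triangle-free, minimum degree at least one, every degree value occurs at most `k` times. -/
def Admissible (k : ℕ) {V : Type} [Fintype V] (G : SimpleGraph V) : Prop :=
  G.CliqueFree 3 ∧ (∀ v, 1 ≤ G.degree v) ∧
    ∀ d : ℕ, (univ.filter (fun v => G.degree v = d)).card ≤ k

/-- `g_k(n)`: the least independence number of an admissible graph on `n` vertices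
(`⊤` if there is none). -/
noncomputable def gk (k n : ℕ) : ℕ∞ :=
  ⨅ (G : SimpleGraph (Fin n)) (_ : Admissible k G), (G.indepNum : ℕ∞)

/-- The known lower bound. -/
lemma lower {k n : ℕ} (G : SimpleGraph (Fin n)) (h : Admissible k G) : n ≤ k * G.indepNum := by
  obtain ⟨h1, h2, h3⟩ := h
  have hdeg : ∀ v, G.degree v ≤ G.indepNum := by
    intro v
    rw [← SimpleGraph.card_neighborFinset_eq_degree]
    apply SimpleGraph.IsIndepSet.card_le_indepNum
    intro a ha b hb hab hadj
    rw [SimpleGraph.coe_neighborFinset, SimpleGraph.mem_neighborSet] at ha hb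
    exact h1 {v, a, b} (SimpleGraph.is3Clique_triple_iff.2 ⟨ha, hb, hadj⟩)
  have hcov : (univ : Finset (Fin n)) ⊆
      (Finset.Icc 1 G.indepNum).biUnion (fun d => univ.filter (fun v => G.degree v = d)) := by
    intro v _
    rw [Finset.mem_biUnion]
    exact ⟨G.degree v, Finset.mem_Icc.2 ⟨h2 v, hdeg v⟩, by simp⟩
  calc n = (univ : Finset (Fin n)).card := by simp
    _ ≤ _ := Finset.card_le_card hcov
    _ ≤ ∑ d ∈ Finset.Icc 1 G.indepNum, (univ.filter (fun v => G.degree v = d)).card :=
        Finset.card_biUnion_le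
    _ ≤ ∑ d ∈ Finset.Icc 1 G.indepNum, k := Finset.sum_le_sum (fun d _ => h3 d)
    _ = k * G.indepNum := by simp [mul_comm]

/-- Transfer of a graph on a finite type to `Fin n`. -/
lemma transfer {k n b : ℕ} {V : Type} [Fintype V] (hn : Fintype.card V = n)
    (G : SimpleGraph V) (h3 : ∀ a b c, G.Adj a b → G.Adj b c → G.Adj a c → False)
    (hpos : ∀ v, 1 ≤ (univ.filter (fun w => G.Adj v w)).card)
    (hm : ∀ d : ℕ, (univ.filter (fun v => (univ.filter (fun w => G.Adj v w)).card = d)).card ≤ k)
    (hI : ∀ I : Finset V, (∀ a ∈ I, ∀ b ∈ I, ¬ G.Adj a b) → I.card ≤ b) :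
    gk k n ≤ (b : ℕ∞) := by
  subst hn
  set e : Fin (Fintype.card V) ≃ V := (Fintype.equivFin V).symm with he
  set G' : SimpleGraph (Fin (Fintype.card V)) := G.comap e with hG'
  have hdeg : ∀ i (inst : Fintype (G'.neighborSet i)),
      @SimpleGraph.degree _ G' i inst = (univ.filter (fun w => G.Adj (e i) w)).card := by
    intro i inst
    rw [← SimpleGraph.card_neighborFinset_eq_degree]
    apply Finset.card_bij (fun j _ => e j)
    · intro j hj
      rw [SimpleGraph.mem_neighborFinset] at hj
      simp only [mem_filter, mem_univ, true_and]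
      exact hj
    · intro a _ b _ hab
      exact e.injective hab
    · intro w hw
      refine ⟨e.symm w, ?_, by simp⟩
      rw [SimpleGraph.mem_neighborFinset]
      simpa [hG'] using hw
  have hadm : Admissible k G' := by
    refine ⟨?_, ?_, ?_⟩
    · intro s hs
      rw [SimpleGraph.is3Clique_iff] at hs
      obtain ⟨a, b, c, hab, hac, hbc, -⟩ := hs
      exact h3 (e a) (e b) (e c) hab hbc hac
    · intro i
      rw [hdeg]
      exact hpos _
    · intro d
      refine le_trans ?_ (hm d)
      apply Finset.card_le_card_of_injOn (fun i => e i)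
      · intro i hi
        simp only [Finset.coe_filter, mem_univ, true_and, Set.mem_ofPred_eq] at hi ⊢
        rw [hdeg] at hi
        exact hi
      · intro a _ b _ hab
        exact e.injective hab
  have hind : G'.indepNum ≤ b := by
    obtain ⟨s, hs⟩ := G'.exists_isNIndepSet_indepNum
    rw [← hs.card_eq, ← Finset.card_map e.toEmbedding]
    apply hI
    intro x hx y hy hxy
    rw [Finset.mem_map] at hx hy
    obtain ⟨i, hi, rfl⟩ := hx
    obtain ⟨j, hj, rfl⟩ := hy
    have hne : i ≠ j := by
      rintro rfl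
      exact G.irrefl hxy
    exact hs.isIndepSet (Finset.mem_coe.2 hi) (Finset.mem_coe.2 hj) hne hxy
  unfold gk
  exact (iInf₂_le G' hadm).trans (by exact_mod_cast hind)

/-! ### The case `k = 2` -/

/-- the half graph -/
def HG (N : ℕ) : SimpleGraph (Bool × Fin N) where
  Adj a b := a.1 ≠ b.1 ∧ N ≤ (a.2 : ℕ) + b.2 + 1
  symm := ⟨fun _ _ h => ⟨h.1.symm, by have := h.2; omega⟩⟩
  loopless := ⟨fun _ h => h.1 rfl⟩

lemma HG_deg (N : ℕ) (a : Bool × Fin N) :
    (univ.filter (fun b => (HG N).Adj a b)).card = (a.2 : ℕ) + 1 := by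
  have ha := a.2.2
  have : (univ.filter (fun b => (HG N).Adj a b)).card
      = (Finset.Ico (N - (a.2 + 1)) N).card := by
    apply Finset.card_bij (fun b _ => (b.2 : ℕ))
    · intro b hb
      simp only [mem_filter, mem_univ, true_and] at hb
      have hb2 := b.2.2
      have := hb.2
      rw [Finset.mem_Ico]
      omega
    · intro b hb c hc hbc
      simp only [mem_filter, mem_univ, true_and] at hb hc
      have h1 := hb.1
      have h2 := hc.1
      apply Prod.ext
      · cases h : a.1 <;> cases h' : b.1 <;> cases h'' : c.1 <;> simp_all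
      · exact Fin.ext hbc
    · intro m hm
      rw [Finset.mem_Ico] at hm
      refine ⟨(!a.1, ⟨m, hm.2⟩), ?_, rfl⟩
      simp only [mem_filter, mem_univ, true_and]
      refine ⟨by simp, ?_⟩
      simp only
      omega
  rw [this, Nat.card_Ico]
  omega

lemma two_case (N : ℕ) : gk 2 (2 * N) ≤ (N : ℕ∞) := by
  apply transfer (V := Bool × Fin N) (by simp) (HG N)
  · intro a b c h1 h2 h3
    have e1 := h1.1
    have e2 := h2.1
    have e3 := h3.1
    cases ha : a.1 <;> cases hb : b.1 <;> cases hc : c.1 <;> simp_all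
  · intro v
    rw [HG_deg]
    omega
  · intro d
    have : (univ : Finset Bool).card = 2 := by simp
    rw [← this]
    apply Finset.card_le_card_of_injOn (fun a => a.1)
    · intro a _
      simp
    · intro a ha b hb hab
      simp only [Finset.coe_filter, mem_univ, true_and, Set.mem_ofPred_eq, HG_deg] at ha hb hab
      apply Prod.ext hab
      apply Fin.ext
      omega
  · intro I hI
    have : (univ : Finset (Fin N)).card = N := by simp
    conv_rhs => rw [← this]
    apply Finset.card_le_card_of_injOn (fun a => if a.1 then a.2.rev else a.2)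
    · intro a _
      simp
    · intro a ha b hb hab
      simp only at hab
      have hna := a.2.2
      have hnb := b.2.2
      by_cases h : a.1 = b.1
      · apply Prod.ext h
        rw [h] at hab
        split_ifs at hab with h2
        · exact Fin.rev_injective hab
        · exact hab
      · exfalso
        apply hI a ha b hb
        refine ⟨h, ?_⟩
        cases h1 : a.1 <;> cases h2 : b.1
        · exact absurd (h1.trans h2.symm) h
        · rw [h1, h2] at hab
          simp at hab
          rw [hab, Fin.val_rev]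
          omega
        · rw [h1, h2] at hab
          simp at hab
          rw [← hab, Fin.val_rev]
          omega
        · exact absurd (h1.trans h2.symm) h

/-! ### The case `k ≥ 3` -/

lemma big_case {k : ℕ} (hk : 3 ≤ k) {ε : ℝ} (hε : 0 < ε) (n₀ : ℕ) :
    ∃ n b : ℕ, n₀ ≤ n ∧ 0 < n ∧ gk k n ≤ (b : ℕ∞) ∧ (b : ℝ) ≤ (1 / k + ε) * n := by
  obtain ⟨S⟩ := exists_lineSys k hk
  set η : ℝ := min (ε / 2) 1 with hη
  have hηpos : 0 < η := by rw [hη]; positivity
  have hη1 : η ≤ 1 := min_le_right _ _
  have hηε : η ≤ ε / 2 := min_le_left _ _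
  obtain ⟨Q0, hQ0⟩ := exists_nat_gt (2 / ε)
  set Q := max Q0 n₀ with hQ
  have hQε : 2 / ε < (Q : ℝ) := lt_of_lt_of_le hQ0 (by exact_mod_cast le_max_left _ _)
  have hQn : n₀ ≤ Q := le_max_right _ _
  obtain ⟨P0, hP0⟩ := exists_nat_gt (3 / η ^ 2)
  obtain ⟨p, hp, hprime⟩ := Nat.exists_infinite_primes (max P0 (max k 3))
  have : Fact p.Prime := ⟨hprime⟩
  have hp1 : P0 ≤ p := (le_max_left _ _).trans hp
  have hpk : k ≤ p := ((le_max_left _ _).trans (le_max_right _ _)).trans hp
  have hp3 : 3 ≤ p := ((le_max_right _ _).trans (le_max_right _ _)).trans hp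
  have hpη : 3 / η ^ 2 < (p : ℝ) := lt_of_lt_of_le hP0 (by exact_mod_cast hp1)
  have hpne : p ≠ 2 := by omega
  obtain ⟨T, -, hT⟩ := Finset.exists_subset_card_eq
    (s := (univ : Finset (HH p))) (n := (k - 1) * (p - 1)) (by
      rw [Finset.card_univ]
      have : Fintype.card (HH p) = p * p := by simp [ZMod.card]
      rw [this]
      exact Nat.mul_le_mul (by omega) (by omega))
  have hkR : (3 : ℝ) ≤ k := by exact_mod_cast hk
  have hppos : (0 : ℝ) < (p : ℝ) * p := by
    have : (0 : ℝ) < p := by exact_mod_cast hprime.pos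
    positivity
  set β : ℝ := 4 * k * (p * p) + Q * (4 * ((p * p) + (k - 1) * (η * (p * p)))) with hβ
  have hβ0 : 0 ≤ β := by
    have : (0 : ℝ) ≤ (k : ℝ) - 1 := by linarith
    rw [hβ]; positivity
  refine ⟨4 * k * ((Q + 1) * (p * p)), ⌊β⌋₊, ?_, ?_, ?_, ?_⟩
  · have : 1 ≤ p * p := by nlinarith
    calc n₀ ≤ Q := hQn
      _ ≤ (Q + 1) * (p * p) := by nlinarith
      _ ≤ 4 * k * ((Q + 1) * (p * p)) := Nat.le_mul_of_pos_left _ (by omega)
  · have : 0 < p * p := by positivity
    positivity
  · apply transfer (card_VV S Q p) (GG S Q p T)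
    · exact GG_triangle S Q p T hpne
    · intro v
      have := dg_eq S Q p T hT v
      unfold dg at this
      rw [this]
      omega
    · intro d
      exact dg_mult S Q p T hT d
    · intro I hI
      apply Nat.le_floor
      exact indep_bound S Q p T hpne (by omega) hηpos hη1 hpη I hI
  · refine (Nat.floor_le hβ0).trans ?_
    push_cast
    have hkpos : (0 : ℝ) < k := by linarith
    have e1 : (1 / (k : ℝ) + ε) * (4 * k * ((Q + 1) * (p * p)))
        = 4 * ((Q + 1) * (p * p)) + ε * (4 * k * ((Q + 1) * (p * p))) := by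
      field_simp
    rw [e1, hβ]
    have hQε' : 2 ≤ ε * Q := by
      rw [div_lt_iff₀ hε] at hQε
      linarith
    have hQ0' : (0 : ℝ) ≤ Q := Nat.cast_nonneg Q
    generalize (p : ℝ) * p = X at hppos ⊢
    generalize (Q : ℝ) = q at hQε' hQ0' ⊢
    generalize (k : ℝ) = κ at hkpos ⊢
    clear * - hppos hQε' hQ0' hkpos hηpos hηε hε
    have a1 : 4 * κ * X ≤ (ε / 2) * (4 * κ * ((q + 1) * X)) := by
      have h1 : 1 ≤ (ε / 2) * (q + 1) := by linarith
      have h4 : 0 ≤ 4 * κ * X := by positivity
      have := mul_le_mul_of_nonneg_left h1 h4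
      linarith
    have a2 : q * (4 * ((κ - 1) * (η * X))) ≤ (ε / 2) * (4 * κ * ((q + 1) * X)) := by
      have h5 : (κ - 1) * η ≤ κ * (ε / 2) := by
        have := mul_le_mul_of_nonneg_left hηε hkpos.le
        linarith
      have h6 : q * ((κ - 1) * η) ≤ (q + 1) * (κ * (ε / 2)) := by
        have h7 : 0 ≤ κ * (ε / 2) := by positivity
        have := mul_le_mul_of_nonneg_left h5 hQ0'
        linarith
      have := mul_le_mul_of_nonneg_left h6 (by positivity : 0 ≤ 4 * X)
      linarith
    linarith

/-- The main theorem. -/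
theorem main (k : ℕ) (hk : 2 ≤ k) :
    liminf (fun n : ℕ => ((gk k n : ℕ∞) : ENNReal) / (n : ENNReal)) atTop = 1 / (k : ENNReal) := by
  have hk0 : (k : ENNReal) ≠ 0 := by
    have : k ≠ 0 := by omega
    exact_mod_cast this
  have hktop : (k : ENNReal) ≠ ⊤ := ENNReal.natCast_ne_top k
  apply le_antisymm
  · apply ENNReal.le_of_forall_pos_le_add
    intro ε hε _
    apply liminf_le_of_frequently_le'
    rw [frequently_atTop]
    intro n₀
    have hex : ∃ n b : ℕ, n₀ ≤ n ∧ 0 < n ∧ gk k n ≤ (b : ℕ∞) ∧
        (b : ℝ) ≤ (1 / k + (ε : ℝ)) * n := by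
      by_cases h3 : 3 ≤ k
      · exact big_case h3 (by exact_mod_cast hε) n₀
      · have h2 : k = 2 := by omega
        subst h2
        refine ⟨2 * (n₀ + 1), n₀ + 1, by omega, by omega, two_case _, ?_⟩
        push_cast
        have : (0 : ℝ) ≤ (ε : ℝ) * (2 * (n₀ + 1)) := by positivity
        nlinarith
    obtain ⟨n, b, h1, h2, h3, h4⟩ := hex
    refine ⟨n, h1, ?_⟩
    have hn : (0 : ℝ) < n := by exact_mod_cast h2
    have h5 : ((gk k n : ℕ∞) : ENNReal) ≤ (b : ENNReal) := by
      have := ENat.toENNReal_le.2 h3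
      simpa using this
    calc ((gk k n : ℕ∞) : ENNReal) / (n : ENNReal) ≤ (b : ENNReal) / (n : ENNReal) :=
          ENNReal.div_le_div_right h5 _
      _ = ENNReal.ofReal ((b : ℝ) / n) := by
          rw [ENNReal.ofReal_div_of_pos hn, ENNReal.ofReal_natCast, ENNReal.ofReal_natCast]
      _ ≤ ENNReal.ofReal (1 / k + (ε : ℝ)) := by
          apply ENNReal.ofReal_le_ofReal
          rw [div_le_iff₀ hn]
          exact h4
      _ = 1 / (k : ENNReal) + ε := by
          have hkR : (0 : ℝ) < k := by
            have : 0 < k := by omega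
            exact_mod_cast this
          rw [ENNReal.ofReal_add (by positivity) (by positivity), ENNReal.ofReal_div_of_pos hkR]
          simp
  · apply le_liminf_of_le
    · exact isCobounded_ge_of_top
    · filter_upwards [eventually_ge_atTop 1] with n hn
      have hn0 : (n : ENNReal) ≠ 0 := by
        have : n ≠ 0 := by omega
        exact_mod_cast this
      rw [ENNReal.le_div_iff_mul_le (Or.inl hn0) (Or.inl (ENNReal.natCast_ne_top n))]
      have h1 : (n : ℕ∞) ≤ k * gk k n := by
        have hk' : (k : ℕ∞) ≠ 0 := by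
          have : k ≠ 0 := by omega
          exact_mod_cast this
        unfold gk
        rw [ENat.mul_iInf_of_ne hk']
        apply le_iInf
        intro G
        rw [ENat.mul_iInf_of_ne hk']
        apply le_iInf
        intro hG
        exact_mod_cast lower G hG
      have h2 : (n : ENNReal) ≤ (k : ENNReal) * ((gk k n : ℕ∞) : ENNReal) := by
        have := ENat.toENNReal_le.2 h1
        simpa using this
      rw [one_div]
      calc (k : ENNReal)⁻¹ * n ≤ (k : ENNReal)⁻¹ * (k * ((gk k n : ℕ∞) : ENNReal)) := by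
            gcongr
        _ = ((gk k n : ℕ∞) : ENNReal) := by
            rw [← mul_assoc, ENNReal.inv_mul_cancel hk0 hktop, one_mul]

end Pool.Agent.L7h7.TriDeg
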