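import Pool.Agent.L7h7.TriDeg.LineSys
import Pool.Agent.L7h7.TriDeg.Block

/-!
The graph attached to a line system.
-/

namespace Pool.Agent.L7h7.TriDeg

open Finset Classical

variable {k : ℕ} (S : LineSys k) (Q p : ℕ) [Fact p.Prime] (T : Finset (HH p))

/-- positions on one line -/
abbrev XX := Option (Fin Q) × HH p

/-- vertices -/
abbrev VV := S.Λ × XX Q p

noncomputable def ord (x : S.Λ) : ℕ := (Fintype.equivFin S.Λ x : ℕ)

lemma ord_inj {x y : S.Λ} (h : ord S x = ord S y) : x = y := by
  unfold ord at h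
  exact (Fintype.equivFin S.Λ).injective (Fin.ext h)

noncomputable def ee : HH p ≃ Fin (p * p) := Fintype.equivFinOfCardEq (by simp [ZMod.card])

/-- index inside one line -/
def idx (b : Bool) : Option (Fin Q) → ℕ
  | some i => if b then (i : ℕ) else Q - 1 - i
  | none => Q

lemma idx_some (b : Bool) (i : Fin Q) :
    idx Q b (some i) = if b then (i : ℕ) else Q - 1 - i := rfl

lemma idx_none (b : Bool) : idx Q b none = Q := rfl

noncomputable def pos (b : Bool) (x : XX Q p) : ℕ := idx Q b x.1 * (p * p) + (ee p x.2 : ℕ)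

lemma idx_lt (b : Bool) (o : Option (Fin Q)) : idx Q b o < Q + 1 := by
  rcases o with _ | i
  · rw [idx_none]; omega
  · rw [idx_some]
    have := i.2
    split_ifs <;> omega

lemma idx_inj (b : Bool) {o o' : Option (Fin Q)} (h : idx Q b o = idx Q b o') : o = o' := by
  rcases o with _ | i <;> rcases o' with _ | j
  · rfl
  · have := j.2
    rw [idx_none, idx_some] at h
    split_ifs at h <;> omega
  · have := i.2
    rw [idx_none, idx_some] at h
    split_ifs at h <;> omega
  · have := i.2
    have := j.2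
    congr 1
    apply Fin.ext
    rw [idx_some, idx_some] at h
    split_ifs at h <;> omega

lemma pos_lt (b : Bool) (x : XX Q p) : pos Q p b x < (Q + 1) * (p * p) := by
  unfold pos
  have h1 := idx_lt Q b x.1
  have h2 := (ee p x.2).2
  calc idx Q b x.1 * (p * p) + (ee p x.2 : ℕ) < idx Q b x.1 * (p * p) + p * p := by omega
    _ = (idx Q b x.1 + 1) * (p * p) := by ring
    _ ≤ (Q + 1) * (p * p) := Nat.mul_le_mul_right _ h1

lemma pos_inj (b : Bool) {x y : XX Q p} (h : pos Q p b x = pos Q p b y) : x = y := by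
  unfold pos at h
  have h1 := (ee p x.2).2
  have h2 := (ee p y.2).2
  have hpp : 0 < p * p := by have := (Fact.out : p.Prime).pos; positivity
  have e1 : idx Q b x.1 = idx Q b y.1 := by
    have a1 : (idx Q b x.1 * (p * p) + (ee p x.2 : ℕ)) / (p * p) = idx Q b x.1 := by
      rw [mul_comm, Nat.mul_add_div hpp, Nat.div_eq_of_lt h1, add_zero]
    have a2 : (idx Q b y.1 * (p * p) + (ee p y.2 : ℕ)) / (p * p) = idx Q b y.1 := by
      rw [mul_comm, Nat.mul_add_div hpp, Nat.div_eq_of_lt h2, add_zero]
    rw [← a1, ← a2, h]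
  have e2 : (ee p x.2 : ℕ) = (ee p y.2 : ℕ) := by
    rw [e1] at h
    omega
  apply Prod.ext
  · exact idx_inj Q b e1
  · exact (ee p).injective (Fin.ext e2)

lemma card_XX : Fintype.card (XX Q p) = (Q + 1) * (p * p) := by
  simp [XX, ZMod.card]

/-- number of positions in the upper segment -/
lemma card_upper (b : Bool) {P : ℕ} (hP : P < (Q + 1) * (p * p)) :
    (univ.filter (fun x : XX Q p => (Q + 1) * (p * p) ≤ P + pos Q p b x + 1)).card = P + 1 := by
  have himg : (univ : Finset (XX Q p)).image (pos Q p b) = range ((Q + 1) * (p * p)) := by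
    apply Finset.eq_of_subset_of_card_le
    · intro m hm
      simp only [mem_image, mem_univ, true_and] at hm
      obtain ⟨x, rfl⟩ := hm
      exact mem_range.2 (pos_lt Q p b x)
    · rw [Finset.card_image_of_injective _ (fun x y h => pos_inj Q p b h), card_range,
        Finset.card_univ, card_XX]
  have h1 : (univ.filter (fun x : XX Q p => (Q + 1) * (p * p) ≤ P + pos Q p b x + 1)).card
      = ((range ((Q + 1) * (p * p))).filter
          (fun m => (Q + 1) * (p * p) ≤ P + m + 1)).card := by
    rw [← himg, Finset.filter_image, Finset.card_image_of_injective _ (fun x y h => pos_inj Q p b h)]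
  rw [h1]
  have h2 : (range ((Q + 1) * (p * p))).filter (fun m => (Q + 1) * (p * p) ≤ P + m + 1)
      = Finset.Ico ((Q + 1) * (p * p) - (P + 1)) ((Q + 1) * (p * p)) := by
    ext m
    simp only [mem_filter, mem_range, mem_Ico]
    omega
  rw [h2, Nat.card_Ico]
  omega

/-- the half-graph relation -/
def WW (a b : VV S Q p) : Prop :=
  S.E a.1 b.1 = true ∨
    (b.1 = S.M a.1 ∧ (Q + 1) * (p * p) ≤ pos Q p (S.flag a.1) a.2 + pos Q p (S.flag b.1) b.2 + 1)

/-- oriented difference relation -/
def dif (U : Finset (HH p)) (a b : VV S Q p) : Prop :=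
  (ord S a.1 < ord S b.1 ∧ b.2.2 - a.2.2 ∈ U) ∨ (ord S b.1 < ord S a.1 ∧ a.2.2 - b.2.2 ∈ U)

/-- the relation inside cells -/
def RR (a b : VV S Q p) : Prop :=
  (∃ i, a.2.1 = some i ∧ b.2.1 = some i ∧ S.g a.1 = S.g b.1 ∧ dif S Q p (par p) a b) ∨
    (a.2.1 = none ∧ b.2.1 = none ∧ b.1 = S.ρ a.1 ∧ dif S Q p T a b)

variable {S Q p T}

lemma WW_symm {a b : VV S Q p} (h : WW S Q p a b) : WW S Q p b a := by
  rcases h with h | ⟨h1, h2⟩
  · left; rw [S.E_symm]; exact h
  · right
    refine ⟨by rw [h1, S.M_M], by omega⟩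

lemma WW_side {a b : VV S Q p} (h : WW S Q p a b) : S.side a.1 ≠ S.side b.1 := by
  rcases h with h | ⟨h1, _⟩
  · exact S.E_side _ _ h
  · rw [h1]; exact (S.M_side _).symm

lemma dif_symm {U : Finset (HH p)} {a b : VV S Q p} (h : dif S Q p U a b) :
    dif S Q p U b a := by
  rcases h with h | h
  · exact Or.inr h
  · exact Or.inl h

lemma dif_ne {U : Finset (HH p)} {a b : VV S Q p} (h : dif S Q p U a b) : a.1 ≠ b.1 := by
  intro hab
  rcases h with ⟨h, _⟩ | ⟨h, _⟩ <;> rw [hab] at h <;> exact absurd h (lt_irrefl _)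

lemma RR_symm {a b : VV S Q p} (h : RR S Q p T a b) : RR S Q p T b a := by
  rcases h with ⟨i, h1, h2, h3, h4⟩ | ⟨h1, h2, h3, h4⟩
  · exact Or.inl ⟨i, h2, h1, h3.symm, dif_symm h4⟩
  · exact Or.inr ⟨h2, h1, by rw [h3, S.ρ_ρ], dif_symm h4⟩

lemma RR_ne {a b : VV S Q p} (h : RR S Q p T a b) : a.1 ≠ b.1 := by
  rcases h with ⟨i, h1, h2, h3, h4⟩ | ⟨h1, h2, h3, h4⟩
  · exact dif_ne h4
  · exact dif_ne h4

/-- no half-graph edge inside a full cell -/
lemma notW_cell {a b : VV S Q p} {i : Fin Q} (ha : a.2.1 = some i) (hb : b.2.1 = some i)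
    (hg : S.g a.1 = S.g b.1) : ¬ WW S Q p a b := by
  rintro (h | ⟨h1, h2⟩)
  · rw [S.g_E _ _ hg] at h; exact absurd h (by simp)
  · have hf := S.g_flag a.1 (by rw [← h1, hg])
    rw [← h1] at hf
    unfold pos at h2
    rw [ha, hb] at h2
    have e1 := (ee p a.2.2).2
    have e2 := (ee p b.2.2).2
    have hi := i.2
    have hsum : idx Q (S.flag a.1) (some i) + idx Q (S.flag b.1) (some i) = Q - 1 := by
      rw [idx_some, idx_some]
      cases hfa : S.flag a.1 <;> cases hfb : S.flag b.1
      · rw [hfa, hfb] at hf; exact absurd rfl hf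
      · simp; omega
      · simp; omega
      · rw [hfa, hfb] at hf; exact absurd rfl hf
    have h3 : idx Q (S.flag a.1) (some i) * (p * p) + idx Q (S.flag b.1) (some i) * (p * p)
        = (Q - 1) * (p * p) := by rw [← add_mul, hsum]
    have h4 : (Q + 1) * (p * p) = (Q - 1) * (p * p) + 2 * (p * p) := by
      rw [← add_mul]; congr 1; omega
    omega

/-- no half-graph edge inside a small cell -/
lemma notW_top {a b : VV S Q p} (hb : b.1 = S.ρ a.1) : ¬ WW S Q p a b := by
  rintro (h | ⟨h1, _⟩)
  · rw [hb, S.ρ_E] at h; exact absurd h (by simp)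
  · exact S.ρ_M a.1 (by rw [← hb, h1])

lemma WW_adj {a c : VV S Q p} (h : WW S Q p a c) : S.E a.1 c.1 = true ∨ c.1 = S.M a.1 := by
  rcases h with h | ⟨h, _⟩
  · exact Or.inl h
  · exact Or.inr h

lemma no_RWW {a b c : VV S Q p} (h : RR S Q p T a b) (h1 : WW S Q p a c) (h2 : WW S Q p b c) :
    False := by
  have hne := RR_ne h
  rcases h with ⟨i, _, _, hg, _⟩ | ⟨_, _, hρ, _⟩
  · exact S.g_nbr _ _ c.1 hne hg ⟨WW_adj h1, WW_adj h2⟩
  · have h2' := WW_adj h2
    rw [hρ] at h2'
    exact S.ρ_nbr a.1 c.1 ⟨WW_adj h1, h2'⟩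

lemma no_RRW {a b c : VV S Q p} (h1 : RR S Q p T a b) (h2 : RR S Q p T b c)
    (h3 : WW S Q p a c) : False := by
  rcases h1 with ⟨i, ha, hb, hg, _⟩ | ⟨ha, hb, hρ, _⟩
  · rcases h2 with ⟨j, hb', hc, hg', _⟩ | ⟨hb', _⟩
    · have : i = j := by rw [hb] at hb'; exact Option.some.inj hb'
      subst this
      exact notW_cell ha hc (hg.trans hg') h3
    · rw [hb] at hb'; exact absurd hb' (by simp)
  · rcases h2 with ⟨j, hb', _⟩ | ⟨hb', hc, hρ', _⟩
    · rw [hb] at hb'; exact absurd hb' (by simp)
    · rw [hρ, S.ρ_ρ] at hρ'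
      exact WW_side h3 (by rw [hρ'])

lemma no_RW {a b : VV S Q p} (h1 : RR S Q p T a b) (h2 : WW S Q p a b) : False := by
  rcases h1 with ⟨i, ha, hb, hg, _⟩ | ⟨ha, hb, hρ, _⟩
  · exact notW_cell ha hb hg h2
  · exact notW_top hρ h2

lemma no_WWW {a b c : VV S Q p} (h1 : WW S Q p a b) (h2 : WW S Q p b c) (h3 : WW S Q p a c) :
    False := by
  have e1 := WW_side h1
  have e2 := WW_side h2
  have e3 := WW_side h3
  cases ha : S.side a.1 <;> cases hb : S.side b.1 <;> cases hc : S.side c.1 <;>
    simp_all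

lemma no_RRR (hp : p ≠ 2) {a b c : VV S Q p} (h1 : RR S Q p T a b) (h2 : RR S Q p T b c)
    (h3 : RR S Q p T a c) : False := by
  rcases h1 with ⟨i, ha, hb, hg, hd⟩ | ⟨ha, hb, hρ, _⟩
  · rcases h2 with ⟨j, hb', hc, hg', hd'⟩ | ⟨hb', _⟩
    · rcases h3 with ⟨l, ha', hc', hg'', hd''⟩ | ⟨ha', _⟩
      · have key : ∀ {s t u : HH p}, s ∈ par p → t ∈ par p → u ∈ par p → s + t = u → False := by
          intro s t u hs ht hu h
          exact par_sumfree hp hs ht (h ▸ hu)
        rcases hd with ⟨o1, d1⟩ | ⟨o1, d1⟩ <;> rcases hd' with ⟨o2, d2⟩ | ⟨o2, d2⟩ <;>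
          rcases hd'' with ⟨o3, d3⟩ | ⟨o3, d3⟩
        · exact key d1 d2 d3 (by abel)
        · omega
        · exact key d3 d2 d1 (by abel)
        · exact key d3 d1 d2 (by abel)
        · exact key d1 d3 d2 (by abel)
        · exact key d2 d3 d1 (by abel)
        · omega
        · exact key d1 d2 d3 (by abel)
      · rw [ha] at ha'; exact absurd ha' (by simp)
    · rw [hb] at hb'; exact absurd hb' (by simp)
  · rcases h2 with ⟨j, hb', _⟩ | ⟨hb', hc, hρ', hd'⟩
    · rw [hb] at hb'; exact absurd hb' (by simp)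
    · rw [hρ, S.ρ_ρ] at hρ'
      exact RR_ne h3 hρ'.symm

variable (S Q p T)

/-- the graph -/
def GG : SimpleGraph (VV S Q p) where
  Adj a b := WW S Q p a b ∨ RR S Q p T a b
  symm := ⟨fun _ _ h => h.elim (fun h => Or.inl (WW_symm h)) (fun h => Or.inr (RR_symm h))⟩
  loopless := ⟨fun _ h => h.elim (fun h => WW_side h rfl) (fun h => RR_ne h rfl)⟩

lemma GG_triangle (hp : p ≠ 2) (a b c : VV S Q p) (h1 : (GG S Q p T).Adj a b)
    (h2 : (GG S Q p T).Adj b c) (h3 : (GG S Q p T).Adj a c) : False := by
  rcases h1 with h1 | h1 <;> rcases h2 with h2 | h2 <;> rcases h3 with h3 | h3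
  · exact no_WWW h1 h2 h3
  · exact no_RWW h3 h1 (WW_symm h2)
  · exact no_RWW h2 (WW_symm h1) (WW_symm h3)
  · exact no_RRW h3 (RR_symm h2) h1
  · exact no_RWW h1 h3 h2
  · exact no_RRW (RR_symm h1) h3 h2
  · exact no_RRW h1 h2 h3
  · exact no_RRR hp h1 h2 h3


/-! ### Degrees -/

lemma card_filter_VV (P : VV S Q p → Prop) :
    (univ.filter P).card = ∑ l : S.Λ, (univ.filter (fun x : XX Q p => P (l, x))).card := by
  rw [Finset.card_filter, Fintype.sum_prod_type]
  apply Finset.sum_congr rfl
  intro l _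
  rw [Finset.card_filter]

lemma card_WW (a : VV S Q p) :
    (univ.filter (fun b => WW S Q p a b)).card
      = (S.lev a.1 : ℕ) * ((Q + 1) * (p * p)) + (pos Q p (S.flag a.1) a.2 + 1) := by
  rw [card_filter_VV]
  have h : ∀ l : S.Λ, (univ.filter (fun x : XX Q p => WW S Q p a (l, x))).card
      = (if S.E a.1 l = true then (Q + 1) * (p * p) else 0)
        + (if l = S.M a.1 then pos Q p (S.flag a.1) a.2 + 1 else 0) := by
    intro l
    by_cases h1 : S.E a.1 l = true
    · have h2 : l ≠ S.M a.1 := by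
        rintro rfl
        rw [S.E_M] at h1
        exact absurd h1 (by simp)
      rw [if_pos h1, if_neg h2, add_zero]
      have h3 : (univ.filter (fun x : XX Q p => WW S Q p a (l, x))) = univ :=
        Finset.filter_true_of_mem (fun x _ => Or.inl h1)
      rw [h3, Finset.card_univ, card_XX]
    · rw [if_neg h1, zero_add]
      by_cases h2 : l = S.M a.1
      · rw [if_pos h2, ← card_upper Q p (S.flag l) (pos_lt Q p (S.flag a.1) a.2)]
        congr 1
        apply Finset.filter_congr
        intro x _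
        unfold WW
        simp [h2, S.E_M]
      · rw [if_neg h2, Finset.card_eq_zero, Finset.filter_eq_empty_iff]
        rintro x _ (h | ⟨h, _⟩)
        · exact h1 h
        · exact h2 h
  rw [Finset.sum_congr rfl (fun l _ => h l), Finset.sum_add_distrib]
  congr 1
  · rw [← Finset.sum_filter, Finset.sum_const, smul_eq_mul]
    have := S.lev_eq a.1
    rw [← this]
  · simp

lemma card_dif_cell (U : Finset (HH p)) (a : VV S Q p) (l : S.Λ) (o : Option (Fin Q))
    (hne : a.1 ≠ l) :
    (univ.filter (fun x : XX Q p => x.1 = o ∧ dif S Q p U a (l, x))).card = U.card := by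
  rcases lt_or_gt_of_ne (fun h => hne (ord_inj S h) : ord S a.1 ≠ ord S l) with h | h
  · rw [← card_shift a.2.2 U]
    symm
    apply Finset.card_bij (fun w _ => (o, w))
    · intro w hw
      simp only [mem_filter, mem_univ, true_and] at hw ⊢
      exact Or.inl ⟨h, hw⟩
    · intro w _ w' _ h
      simpa using h
    · rintro ⟨o', w⟩ hw
      simp only [mem_filter, mem_univ, true_and] at hw
      obtain ⟨rfl, h1 | h1⟩ := hw
      · exact ⟨w, by simpa using h1.2, rfl⟩
      · exact absurd h1.1 (by simp; omega)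
  · rw [← card_shift' a.2.2 U]
    symm
    apply Finset.card_bij (fun w _ => (o, w))
    · intro w hw
      simp only [mem_filter, mem_univ, true_and] at hw ⊢
      exact Or.inr ⟨h, hw⟩
    · intro w _ w' _ h
      simpa using h
    · rintro ⟨o', w⟩ hw
      simp only [mem_filter, mem_univ, true_and] at hw
      obtain ⟨rfl, h1 | h1⟩ := hw
      · exact absurd h1.1 (by simp; omega)
      · exact ⟨w, by simpa using h1.2, rfl⟩

lemma card_RR (hT : T.card = (k - 1) * (p - 1)) (a : VV S Q p) :
    (univ.filter (fun b => RR S Q p T a b)).card = (k - 1) * (p - 1) := by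
  rw [card_filter_VV]
  rcases ho : a.2.1 with _ | i
  · have h : ∀ l : S.Λ, (univ.filter (fun x : XX Q p => RR S Q p T a (l, x))).card
        = if l = S.ρ a.1 then (k - 1) * (p - 1) else 0 := by
      intro l
      by_cases hl : l = S.ρ a.1
      · rw [if_pos hl, ← hT, ← card_dif_cell S Q p T a l none (by rw [hl]; exact (S.ρ_ne _).symm)]
        congr 1
        apply Finset.filter_congr
        intro x _
        unfold RR
        simp only [ho, hl]
        simp
      · rw [if_neg hl, Finset.card_eq_zero, Finset.filter_eq_empty_iff]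
        rintro x _ (⟨i, h, _⟩ | ⟨_, _, h, _⟩)
        · rw [ho] at h; exact absurd h (by simp)
        · exact hl h
    rw [Finset.sum_congr rfl (fun l _ => h l)]
    simp
  · have h : ∀ l : S.Λ, (univ.filter (fun x : XX Q p => RR S Q p T a (l, x))).card
        = if l ≠ a.1 ∧ S.g l = S.g a.1 then (p - 1) else 0 := by
      intro l
      by_cases hl : l ≠ a.1 ∧ S.g l = S.g a.1
      · rw [if_pos hl, ← card_par p, ← card_dif_cell S Q p (par p) a l (some i) (Ne.symm hl.1)]
        congr 1
        apply Finset.filter_congr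
        intro x _
        unfold RR
        simp only [ho, hl.2]
        simp
      · rw [if_neg hl, Finset.card_eq_zero, Finset.filter_eq_empty_iff]
        rintro x _ (⟨j, h1, h2, h3, h4⟩ | ⟨h, _⟩)
        · exact hl ⟨(dif_ne h4).symm, h3.symm⟩
        · rw [ho] at h; exact absurd h (by simp)
    rw [Finset.sum_congr rfl (fun l _ => h l), ← Finset.sum_filter, Finset.sum_const, smul_eq_mul]
    congr 1
    have hg := S.g_eq (S.g a.1)
    have : (univ.filter (fun l : S.Λ => l ≠ a.1 ∧ S.g l = S.g a.1))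
        = (univ.filter (fun l : S.Λ => S.g l = S.g a.1)).erase a.1 := by
      ext l
      simp only [mem_filter, mem_univ, true_and, mem_erase]
    rw [this, Finset.card_erase_of_mem (by simp)]
    congr 1

/-- the degree of a vertex -/
noncomputable def dg (a : VV S Q p) : ℕ := (univ.filter (fun b => (GG S Q p T).Adj a b)).card

lemma dg_eq (hT : T.card = (k - 1) * (p - 1)) (a : VV S Q p) :
    dg S Q p T a = (S.lev a.1 : ℕ) * ((Q + 1) * (p * p)) + (pos Q p (S.flag a.1) a.2 + 1)
      + (k - 1) * (p - 1) := by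
  unfold dg
  rw [← card_WW, ← card_RR S Q p T hT a, ← Finset.card_union_of_disjoint]
  · congr 1
    ext b
    simp only [mem_filter, mem_univ, true_and, mem_union]
    rfl
  · rw [Finset.disjoint_filter]
    intro b _ h1 h2
    exact no_RW h2 h1

lemma dg_mult (hT : T.card = (k - 1) * (p - 1)) (d : ℕ) :
    (univ.filter (fun a => dg S Q p T a = d)).card ≤ k := by
  set N := (Q + 1) * (p * p) with hN
  have hNpos : 0 < N := by
    have := (Fact.out : p.Prime).pos
    rw [hN]; positivity
  by_cases hd : (k - 1) * (p - 1) + 1 ≤ d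
  · set m := d - 1 - (k - 1) * (p - 1) with hm
    by_cases hm4 : m / N < 4
    · refine le_trans ?_ (S.lev_le ⟨m / N, hm4⟩)
      apply Finset.card_le_card_of_injOn (fun a => a.1)
      · intro a ha
        simp only [Finset.coe_filter, mem_univ, true_and, Set.mem_ofPred_eq] at ha ⊢
        rw [dg_eq S Q p T hT, ← hN] at ha
        have hpl := pos_lt Q p (S.flag a.1) a.2
        rw [← hN] at hpl
        have hmm : m = N * (S.lev a.1 : ℕ) + pos Q p (S.flag a.1) a.2 := by
          rw [mul_comm]
          omega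
        apply Fin.ext
        simp only
        rw [hmm, Nat.mul_add_div hNpos, Nat.div_eq_of_lt hpl, add_zero]
      · intro a ha b hb hab
        simp only [Finset.coe_filter, mem_univ, true_and, Set.mem_ofPred_eq] at ha hb hab
        rw [dg_eq S Q p T hT] at ha hb
        rw [← hb, hab] at ha
        have : pos Q p (S.flag b.1) a.2 = pos Q p (S.flag b.1) b.2 := by omega
        exact Prod.ext hab (pos_inj Q p _ this)
    · have : (univ.filter (fun a => dg S Q p T a = d)) = ∅ := by
        rw [Finset.filter_eq_empty_iff]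
        intro a _ ha
        rw [dg_eq S Q p T hT, ← hN] at ha
        have hpl := pos_lt Q p (S.flag a.1) a.2
        rw [← hN] at hpl
        apply hm4
        rw [Nat.div_lt_iff_lt_mul hNpos]
        have h4 := (S.lev a.1).2
        have : (S.lev a.1 : ℕ) * N ≤ 3 * N := Nat.mul_le_mul_right _ (by omega)
        omega
      rw [this]; simp
  · have : (univ.filter (fun a => dg S Q p T a = d)) = ∅ := by
      rw [Finset.filter_eq_empty_iff]
      intro a _ ha
      rw [dg_eq S Q p T hT] at ha
      omega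
    rw [this]; simp

/-! ### Independent sets -/

lemma cell_bound {ι : Type} [DecidableEq ι] (G : Finset ι) {k : ℕ} (hG : G.card = k) (hk : 1 ≤ k)
    (F : ι → ℝ) {L m : ℝ} (hF : ∀ i ∈ G, F i ≤ L) (hmL : m ≤ L)
    (h : ∀ i ∈ G, ∀ j ∈ G, i ≠ j → F i ≤ m ∨ F j ≤ m) :
    ∑ i ∈ G, F i ≤ L + (k - 1) * m := by
  by_cases hex : ∃ i ∈ G, m < F i
  · obtain ⟨i, hi, hlt⟩ := hex
    rw [← Finset.add_sum_erase G F hi]
    have h1 : ∑ j ∈ G.erase i, F j ≤ ∑ j ∈ G.erase i, m := by
      apply Finset.sum_le_sum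
      intro j hj
      rcases h i hi j (Finset.mem_of_mem_erase hj) (Finset.ne_of_mem_erase hj).symm with h | h
      · linarith
      · exact h
    rw [Finset.sum_const, Finset.card_erase_of_mem hi, hG, nsmul_eq_mul] at h1
    push_cast [Nat.cast_sub hk] at h1
    have := hF i hi
    linarith
  · push Not at hex
    have h1 : ∑ j ∈ G, F j ≤ ∑ j ∈ G, m := Finset.sum_le_sum hex
    rw [Finset.sum_const, hG, nsmul_eq_mul] at h1
    linarith

lemma indep_bound (hp : p ≠ 2) (hk : 1 ≤ k) {η : ℝ} (hη : 0 < η) (hη1 : η ≤ 1)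
    (hpl : 3 / η ^ 2 < (p : ℝ)) (I : Finset (VV S Q p))
    (hI : ∀ a ∈ I, ∀ b ∈ I, ¬ (GG S Q p T).Adj a b) :
    (I.card : ℝ) ≤ 4 * k * (p * p) + Q * (4 * ((p * p) + (k - 1) * (η * (p * p)))) := by
  set F : S.Λ → Option (Fin Q) → ℕ := fun l o =>
    (univ.filter (fun v : HH p => (l, (o, v)) ∈ I)).card with hFdef
  have hFle : ∀ l o, (F l o : ℝ) ≤ p * p := by
    intro l o
    have := Finset.card_le_univ (univ.filter (fun v : HH p => (l, (o, v)) ∈ I))
    have h2 : Fintype.card (HH p) = p * p := by simp [ZMod.card]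
    rw [h2] at this
    exact_mod_cast this
  have hcard : I.card = ∑ l, ∑ o, F l o := by
    have h0 := card_filter_VV S Q p (fun a => a ∈ I)
    have h1 : @Finset.filter _ (fun a => a ∈ I) (fun a => Classical.propDecidable _) univ = I := by
      ext; simp
    rw [h1] at h0
    rw [h0]
    apply Finset.sum_congr rfl
    intro l _
    rw [Finset.card_filter, Fintype.sum_prod_type]
    apply Finset.sum_congr rfl
    intro o _
    simp only [hFdef]
    rw [Finset.card_filter]
    apply Finset.sum_congr rfl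
    intro v _
    split_ifs <;> rfl
  have hcardΛ : Fintype.card S.Λ = 4 * k := by
    have h1 := Finset.card_eq_sum_card_fiberwise (f := S.g) (s := (univ : Finset S.Λ))
      (t := (univ : Finset (Fin 4))) (fun _ _ => Finset.mem_coe.2 (mem_univ _))
    rw [Finset.card_univ] at h1
    rw [h1]
    have h2 : ∀ a ∈ (univ : Finset (Fin 4)), (univ.filter (fun x => S.g x = a)).card = k := by
      intro a _
      have := S.g_eq a
      convert this
    rw [Finset.sum_congr rfl h2]
    simp
  rw [hcard]
  push_cast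
  have hsplit : ∑ l, ∑ o, (F l o : ℝ) = (∑ l, (F l none : ℝ)) + ∑ i : Fin Q, ∑ l, (F l (some i) : ℝ) := by
    rw [Finset.sum_comm (s := (univ : Finset (Fin Q))), ← Finset.sum_add_distrib]
    apply Finset.sum_congr rfl
    intro l _
    rw [Fintype.sum_option]
  rw [hsplit]
  apply add_le_add
  · calc ∑ l, (F l none : ℝ) ≤ ∑ l : S.Λ, ((p : ℝ) * p) := Finset.sum_le_sum (fun l _ => hFle l none)
      _ = 4 * k * (p * p) := by
        rw [Finset.sum_const, Finset.card_univ, hcardΛ, nsmul_eq_mul]
        push_cast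
        ring
  · have hcell : ∀ i : Fin Q, ∑ l, (F l (some i) : ℝ) ≤ 4 * ((p * p) + (k - 1) * (η * (p * p))) := by
      intro i
      rw [← Finset.sum_fiberwise (s := univ) (g := S.g)]
      have : ∀ a ∈ (univ : Finset (Fin 4)), ∑ l ∈ univ.filter (fun l => S.g l = a), (F l (some i) : ℝ)
          ≤ (p * p) + (k - 1) * (η * (p * p)) := by
        intro a _
        apply cell_bound
        · have := S.g_eq a
          convert this
        · exact hk
        · intro l _
          exact hFle l _
        · have : (0 : ℝ) ≤ (p : ℝ) * p := by positivity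
          nlinarith
        · intro l hl l' hl' hne
          simp only [mem_filter, mem_univ, true_and] at hl hl'
          rcases lt_or_gt_of_ne (fun h => hne (ord_inj S h) : ord S l ≠ ord S l') with hlt | hlt
          · apply blocking hp hη hη1 hpl
            intro v hv w hw hmem
            simp only [mem_filter, mem_univ, true_and] at hv hw
            apply hI _ hv _ hw
            right; left
            exact ⟨i, rfl, rfl, by rw [hl, hl'], Or.inl ⟨hlt, hmem⟩⟩
          · apply Or.symm
            apply blocking hp hη hη1 hpl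
            intro v hv w hw hmem
            simp only [mem_filter, mem_univ, true_and] at hv hw
            apply hI _ hv _ hw
            right; left
            exact ⟨i, rfl, rfl, by rw [hl, hl'], Or.inl ⟨hlt, hmem⟩⟩
      calc _ ≤ ∑ a : Fin 4, (((p : ℝ) * p) + (k - 1) * (η * (p * p))) := Finset.sum_le_sum this
        _ = _ := by simp; ring
    calc _ ≤ ∑ i : Fin Q, (4 * (((p : ℝ) * p) + (k - 1) * (η * (p * p)))) :=
          Finset.sum_le_sum (fun i _ => hcell i)
      _ = _ := by simp

lemma card_VV : Fintype.card (VV S Q p) = 4 * k * ((Q + 1) * (p * p)) := by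
  have hcardΛ : Fintype.card S.Λ = 4 * k := by
    have h1 := Finset.card_eq_sum_card_fiberwise (f := S.g) (s := (univ : Finset S.Λ))
      (t := (univ : Finset (Fin 4))) (fun _ _ => Finset.mem_coe.2 (mem_univ _))
    rw [Finset.card_univ] at h1
    rw [h1]
    have h2 : ∀ a ∈ (univ : Finset (Fin 4)), (univ.filter (fun x => S.g x = a)).card = k := by
      intro a _
      have := S.g_eq a
      convert this
    rw [Finset.sum_congr rfl h2]
    simp
  rw [Fintype.card_prod, hcardΛ, card_XX]

end Pool.Agent.L7h7.TriDeg
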