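import Pool.Agent.L7h7.TriDeg.Final

/-! For every `k ≥ 2`, `liminf g_k(n) / n = 1 / k`, where `g_k(n)` is the least independence number
of a triangle-free graph on `n` vertices with minimum degree at least one in which every degree
value occurs at most `k` times. -/

namespace Pool.Agent.L7h7.TriDeg.LiminfSharp

open Classical in
/-- `G` is triangle-free, has minimum degree at least `1`, and every value occurs at most `k` times
among the degrees of its vertices. -/
def Admissible (k n : ℕ) (G : SimpleGraph (Fin n)) : Prop :=
  G.CliqueFree 3 ∧ (∀ v, 1 ≤ G.degree v) ∧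
    ∀ d : ℕ, (Finset.univ.filter (fun v => G.degree v = d)).card ≤ k

/-- `g_k(n)`, the minimum of the independence number over all admissible graphs on `n` vertices,
with value `⊤` when there is none. -/
noncomputable def g (k n : ℕ) : ℕ∞ :=
  ⨅ (G : SimpleGraph (Fin n)) (_ : Admissible k n G), (G.indepNum : ℕ∞)

theorem result : ∀ k : ℕ, 2 ≤ k →
    Filter.liminf (fun n : ℕ => ((g k n : ℕ∞) : ENNReal) / (n : ENNReal)) Filter.atTop
      = 1 / (k : ENNReal) :=
  fun k hk => Pool.Agent.L7h7.TriDeg.main k hk

end Pool.Agent.L7h7.TriDeg.LiminfSharp
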