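import Mathlib

/-!
Line systems: the finite combinatorial skeleton of the triangle-free graphs in which every degree
occurs at most `k` times and whose independence number is close to `n / k`.
-/

namespace Pool.Agent.L7h7.TriDeg

open Finset

/-- The skeleton: `4 * k` lines, a bipartite complete-join relation `E` between lines, a perfect
matching `M` (the half-graph pairs), a level, a group, an orientation flag, and a pairing `ρ`. -/
structure LineSys (k : ℕ) where
  Λ : Type
  fin : Fintype Λ
  dec : DecidableEq Λ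
  side : Λ → Bool
  E : Λ → Λ → Bool
  M : Λ → Λ
  ρ : Λ → Λ
  lev : Λ → Fin 4
  g : Λ → Fin 4
  flag : Λ → Bool
  E_symm : ∀ x y, E x y = E y x
  E_side : ∀ x y, E x y = true → side x ≠ side y
  M_M : ∀ x, M (M x) = x
  M_side : ∀ x, side (M x) ≠ side x
  E_M : ∀ x, E x (M x) = false
  lev_eq : ∀ x, (univ.filter (fun y => E x y = true)).card = (lev x : ℕ)
  lev_le : ∀ c, (univ.filter (fun x => lev x = c)).card ≤ k
  g_eq : ∀ a, (univ.filter (fun x => g x = a)).card = k
  g_E : ∀ x y, g x = g y → E x y = false
  g_nbr : ∀ x y z, x ≠ y → g x = g y →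
    ¬ ((E x z = true ∨ z = M x) ∧ (E y z = true ∨ z = M y))
  g_flag : ∀ x, g (M x) = g x → flag (M x) ≠ flag x
  ρ_ρ : ∀ x, ρ (ρ x) = x
  ρ_ne : ∀ x, ρ x ≠ x
  ρ_M : ∀ x, ρ x ≠ M x
  ρ_E : ∀ x, E x (ρ x) = false
  ρ_nbr : ∀ x z, ¬ ((E x z = true ∨ z = M x) ∧ (E (ρ x) z = true ∨ z = M (ρ x)))

attribute [instance] LineSys.fin LineSys.dec

lemma card_filter_sum {α β : Type} [Fintype α] [Fintype β] [DecidableEq α] [DecidableEq β]
    (p : α ⊕ β → Prop) [DecidablePred p] :
    (univ.filter p).card = (univ.filter (fun x => p (Sum.inl x))).card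
      + (univ.filter (fun x => p (Sum.inr x))).card := by
  rw [Finset.card_filter, Finset.card_filter, Finset.card_filter, Fintype.sum_sum_type]

/-- Disjoint union of line systems. -/
def LineSys.sum {k l : ℕ} (S : LineSys k) (T : LineSys l) : LineSys (k + l) where
  Λ := S.Λ ⊕ T.Λ
  fin := inferInstance
  dec := inferInstance
  side := Sum.elim S.side T.side
  E := fun x y => match x, y with
    | Sum.inl x, Sum.inl y => S.E x y
    | Sum.inr x, Sum.inr y => T.E x y
    | _, _ => false
  M := Sum.map S.M T.M
  ρ := Sum.map S.ρ T.ρ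
  lev := Sum.elim S.lev T.lev
  g := Sum.elim S.g T.g
  flag := Sum.elim S.flag T.flag
  E_symm := by
    rintro (x | x) (y | y) <;> simp
    · exact S.E_symm x y
    · exact T.E_symm x y
  E_side := by
    rintro (x | x) (y | y) <;> simp
    · exact S.E_side x y
    · exact T.E_side x y
  M_M := by
    rintro (x | x) <;> simp [S.M_M, T.M_M]
  M_side := by
    rintro (x | x) <;> simp [S.M_side, T.M_side]
  E_M := by
    rintro (x | x) <;> simp [S.E_M, T.E_M]
  lev_eq := by
    rintro (x | x) <;> rw [card_filter_sum] <;> simp [S.lev_eq, T.lev_eq]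
  lev_le := by
    intro c
    rw [card_filter_sum]
    exact Nat.add_le_add (S.lev_le c) (T.lev_le c)
  g_eq := by
    intro c
    rw [card_filter_sum]
    exact congrArg₂ (· + ·) (S.g_eq c) (T.g_eq c)
  g_E := by
    rintro (x | x) (y | y) <;> simp
    · exact S.g_E x y
    · exact T.g_E x y
  g_nbr := by
    rintro (x | x) (y | y) (z | z) hne hg <;> simp at hne hg ⊢
    · have := S.g_nbr x y z hne hg
      simp at this
      exact this
    · have := T.g_nbr x y z hne hg
      simp at this
      exact this
  g_flag := by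
    rintro (x | x) <;> simp
    · exact S.g_flag x
    · exact T.g_flag x
  ρ_ρ := by
    rintro (x | x) <;> simp [S.ρ_ρ, T.ρ_ρ]
  ρ_ne := by
    rintro (x | x) <;> simp [S.ρ_ne, T.ρ_ne]
  ρ_M := by
    rintro (x | x) <;> simp [S.ρ_M, T.ρ_M]
  ρ_E := by
    rintro (x | x) <;> simp [S.ρ_E, T.ρ_E]
  ρ_nbr := by
    rintro (x | x) (z | z) <;> simp
    · have := S.ρ_nbr x z
      simp at this
      exact this
    · have := T.ρ_nbr x z
      simp at this
      exact this

/-- The three-fold system: two bipartite components on `8` and `4` lines. -/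
def base3 : LineSys 3 where
  Λ := Fin 12
  fin := inferInstance
  dec := inferInstance
  side := ![false, false, false, false, true, true, true, true, false, false, true, true]
  E := fun x y => ((![[5, 6, 7], [4, 6, 7], [5, 7], [], [1], [0, 2], [0, 1], [0, 1, 2],
    [], [11], [], [9]] : Fin 12 → List ℕ) x).contains y.val
  M := ![4, 5, 6, 7, 0, 1, 2, 3, 11, 10, 9, 8]
  ρ := ![8, 9, 4, 5, 2, 3, 11, 10, 0, 1, 7, 6]
  lev := ![3, 3, 2, 0, 1, 2, 2, 3, 0, 1, 0, 1]
  g := ![0, 1, 2, 3, 0, 1, 2, 3, 0, 1, 2, 3]
  flag := ![true, true, true, true, false, false, false, false, true, true, true, true]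
  E_symm := by decide +kernel
  E_side := by decide +kernel
  M_M := by decide +kernel
  M_side := by decide +kernel
  E_M := by decide +kernel
  lev_eq := by decide +kernel
  lev_le := by decide +kernel
  g_eq := by decide +kernel
  g_E := by decide +kernel
  g_nbr := by decide +kernel
  g_flag := by decide +kernel
  ρ_ρ := by decide +kernel
  ρ_ne := by decide +kernel
  ρ_M := by decide +kernel
  ρ_E := by decide +kernel
  ρ_nbr := by decide +kernel

/-- The four-fold system: two half-graphs, each cut into four lines per side. -/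
def base4 : LineSys 4 where
  Λ := Fin 16
  fin := inferInstance
  dec := inferInstance
  side := ![false, false, false, false, true, true, true, true,
    false, false, false, false, true, true, true, true]
  E := fun x y => ((![[], [7], [6, 7], [5, 6, 7], [], [3], [2, 3], [1, 2, 3],
    [], [15], [14, 15], [13, 14, 15], [], [11], [10, 11], [9, 10, 11]] :
      Fin 16 → List ℕ) x).contains y.val
  M := ![7, 6, 5, 4, 3, 2, 1, 0, 15, 14, 13, 12, 11, 10, 9, 8]
  ρ := ![8, 9, 10, 11, 12, 13, 14, 15, 0, 1, 2, 3, 4, 5, 6, 7]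
  lev := ![0, 1, 2, 3, 0, 1, 2, 3, 0, 1, 2, 3, 0, 1, 2, 3]
  g := ![0, 1, 2, 3, 3, 2, 1, 0, 0, 1, 2, 3, 3, 2, 1, 0]
  flag := ![true, true, true, true, false, false, false, false,
    true, true, true, true, false, false, false, false]
  E_symm := by decide +kernel
  E_side := by decide +kernel
  M_M := by decide +kernel
  M_side := by decide +kernel
  E_M := by decide +kernel
  lev_eq := by decide +kernel
  lev_le := by decide +kernel
  g_eq := by decide +kernel
  g_E := by decide +kernel
  g_nbr := by decide +kernel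
  g_flag := by decide +kernel
  ρ_ρ := by decide +kernel
  ρ_ne := by decide +kernel
  ρ_M := by decide +kernel
  ρ_E := by decide +kernel
  ρ_nbr := by decide +kernel

/-- The five-fold system. -/
def base5 : LineSys 5 where
  Λ := Fin 20
  fin := inferInstance
  dec := inferInstance
  side := ![false, false, false, false, true, true, true, true, false, false, true, true,
    false, false, false, false, true, true, true, true]
  E := fun x y => ((![[5, 6, 7], [4, 6, 7], [5, 7], [], [1], [0, 2], [0, 1], [0, 1, 2],
    [], [11], [], [9],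
    [], [19], [18, 19], [17, 18, 19], [], [15], [14, 15], [13, 14, 15]] :
      Fin 20 → List ℕ) x).contains y.val
  M := ![4, 5, 6, 7, 0, 1, 2, 3, 11, 10, 9, 8, 19, 18, 17, 16, 15, 14, 13, 12]
  ρ := ![8, 9, 15, 5, 19, 3, 11, 10, 0, 1, 7, 6, 18, 17, 16, 2, 14, 13, 12, 4]
  lev := ![3, 3, 2, 0, 1, 2, 2, 3, 0, 1, 0, 1, 0, 1, 2, 3, 0, 1, 2, 3]
  g := ![0, 1, 2, 3, 0, 1, 2, 3, 0, 1, 2, 3, 0, 1, 2, 3, 3, 2, 1, 0]
  flag := ![true, true, true, true, false, false, false, false, true, true, true, true,
    true, true, true, true, false, false, false, false]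
  E_symm := by decide +kernel
  E_side := by decide +kernel
  M_M := by decide +kernel
  M_side := by decide +kernel
  E_M := by decide +kernel
  lev_eq := by decide +kernel
  lev_le := by decide +kernel
  g_eq := by decide +kernel
  g_E := by decide +kernel
  g_nbr := by decide +kernel
  g_flag := by decide +kernel
  ρ_ρ := by decide +kernel
  ρ_ne := by decide +kernel
  ρ_M := by decide +kernel
  ρ_E := by decide +kernel
  ρ_nbr := by decide +kernel

/-- Line systems exist for every `k ≥ 3`. -/
theorem exists_lineSys : ∀ k : ℕ, 3 ≤ k → Nonempty (LineSys k)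
  | 0, h => by omega
  | 1, h => by omega
  | 2, h => by omega
  | 3, _ => ⟨base3⟩
  | 4, _ => ⟨base4⟩
  | 5, _ => ⟨base5⟩
  | (k + 6), _ => by
    obtain ⟨S⟩ := exists_lineSys (k + 3) (by omega)
    exact ⟨S.sum base3⟩

end Pool.Agent.L7h7.TriDeg
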